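import Mathlib
import Pool.Agent.Helper15.QH.Halving

/-!
# Stochastic domination for absolute values of sign sums, and a thinning step without logarithm

`dom`: for random signs `ε`, the event that `h y + ∑ ε_l |u_l y| ≤ c` for all `y ∈ S` is at least as
likely as the event that `h y + ∑ ε_l u_l y ≤ c` for all `y ∈ S`.
-/

set_option autoImplicit false

namespace Pool.Agent.Helper72.SD

open Finset
open Pool.Agent.Helper15.QH (sg sg_true sg_false sum_cons sum_exp sum_abs_le)

/-- the two point inequality -/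
theorem two_point {α : Type*} (S : Set α) (c : ℝ) (B v : α → ℝ) :
    (open Classical in
      (if ∀ y ∈ S, B y + v y ≤ c then (1 : ℝ) else 0) + (if ∀ y ∈ S, B y - v y ≤ c then 1 else 0) ≤
      (if ∀ y ∈ S, B y + |v y| ≤ c then (1 : ℝ) else 0) +
        (if ∀ y ∈ S, B y - |v y| ≤ c then 1 else 0)) := by
  classical
  by_cases h1 : ∀ y ∈ S, B y + v y ≤ c
  · by_cases h2 : ∀ y ∈ S, B y - v y ≤ c
    · have h3 : ∀ y ∈ S, B y + |v y| ≤ c := by
        intro y hy
        rcases abs_cases (v y) with ⟨h, _⟩ | ⟨h, _⟩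
        · rw [h]; exact h1 y hy
        · rw [h]; have := h2 y hy; linarith
      have h4 : ∀ y ∈ S, B y - |v y| ≤ c := by
        intro y hy
        have := h3 y hy
        have := abs_nonneg (v y)
        linarith
      rw [if_pos h1, if_pos h2, if_pos h3, if_pos h4]
    · have h4 : ∀ y ∈ S, B y - |v y| ≤ c := by
        intro y hy
        have := h1 y hy
        have := neg_abs_le (v y)
        linarith
      rw [if_pos h1, if_neg h2, if_pos h4]
      have : (0 : ℝ) ≤ if ∀ y ∈ S, B y + |v y| ≤ c then (1 : ℝ) else 0 := by split_ifs <;> norm_num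
      linarith
  · by_cases h2 : ∀ y ∈ S, B y - v y ≤ c
    · have h4 : ∀ y ∈ S, B y - |v y| ≤ c := by
        intro y hy
        have := h2 y hy
        have := le_abs_self (v y)
        linarith
      rw [if_neg h1, if_pos h2, if_pos h4]
      have : (0 : ℝ) ≤ if ∀ y ∈ S, B y + |v y| ≤ c then (1 : ℝ) else 0 := by split_ifs <;> norm_num
      linarith
    · rw [if_neg h1, if_neg h2]
      have h5 : (0 : ℝ) ≤ if ∀ y ∈ S, B y + |v y| ≤ c then (1 : ℝ) else 0 := by
        split_ifs <;> norm_num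
      have h6 : (0 : ℝ) ≤ if ∀ y ∈ S, B y - |v y| ≤ c then (1 : ℝ) else 0 := by
        split_ifs <;> norm_num
      linarith

/-- **Stochastic domination.** -/
theorem dom {α : Type*} (S : Set α) (c : ℝ) (N : ℕ) : ∀ (h : α → ℝ) (u : Fin N → α → ℝ),
    (open Classical in
      ∑ ε : Fin N → Bool, (if ∀ y ∈ S, h y + ∑ l, sg (ε l) * u l y ≤ c then (1 : ℝ) else 0) ≤
      ∑ ε : Fin N → Bool,
        (if ∀ y ∈ S, h y + ∑ l, sg (ε l) * |u l y| ≤ c then (1 : ℝ) else 0)) := by
  classical
  induction N with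
  | zero => intro h u; simp
  | succ N ih =>
    intro h u
    rw [sum_cons, sum_cons, Finset.sum_add_distrib]
    have e1 : ∀ (w : Fin (N + 1) → α → ℝ) (ε : Fin N → Bool) (y : α),
        h y + ∑ l, sg ((Fin.cons true ε : Fin (N + 1) → Bool) l) * w l y =
          (h y + w 0 y) + ∑ l : Fin N, sg (ε l) * w l.succ y := by
      intro w ε y; rw [Fin.sum_univ_succ]; simp; ring
    have e2 : ∀ (w : Fin (N + 1) → α → ℝ) (ε : Fin N → Bool) (y : α),
        h y + ∑ l, sg ((Fin.cons false ε : Fin (N + 1) → Bool) l) * w l y =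
          (h y - w 0 y) + ∑ l : Fin N, sg (ε l) * w l.succ y := by
      intro w ε y; rw [Fin.sum_univ_succ]; simp; ring
    simp only [e1 u, e2 u, e1 (fun l y => |u l y|), e2 (fun l y => |u l y|)]
    refine le_trans (add_le_add (ih (fun y => h y + u 0 y) (fun l => u l.succ))
      (ih (fun y => h y - u 0 y) (fun l => u l.succ))) ?_
    rw [← Finset.sum_add_distrib]
    apply Finset.sum_le_sum
    intro ε _
    have h2 := two_point S c (fun y => h y + ∑ l : Fin N, sg (ε l) * |u l.succ y|) (fun y => u 0 y)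
    have f1 : ∀ (w : ℝ) (y : α), (h y + ∑ l : Fin N, sg (ε l) * |u l.succ y|) + w =
      h y + w + ∑ l : Fin N, sg (ε l) * |u l.succ y| := fun w y => by ring
    have f2 : ∀ (w : ℝ) (y : α), (h y + ∑ l : Fin N, sg (ε l) * |u l.succ y|) - w =
      h y - w + ∑ l : Fin N, sg (ε l) * |u l.succ y| := fun w y => by ring
    simp only [f1, f2] at h2
    exact h2

theorem card_bool (N : ℕ) : ((Finset.univ : Finset (Fin N → Bool)).card : ℝ) = 2 ^ N := by
  rw [Finset.card_univ, Fintype.card_fun, Fintype.card_bool, Fintype.card_fin]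
  push_cast
  rfl

/-- the tail of a sign sum -/
theorem tail {N : ℕ} (x : Fin N → ℝ) (V : ℝ) (hV : ∑ l, x l ^ 2 ≤ V) (hV0 : 0 < V) (K : ℝ)
    (hK : 0 ≤ K) :
    ∑ ε : Fin N → Bool, (if K < |∑ l, sg (ε l) * x l| then (1 : ℝ) else 0) ≤
      2 ^ N * (2 * Real.exp (-(K ^ 2 / (2 * V)))) := by
  set lam := K / V with hlam
  have hlam0 : 0 ≤ lam := by positivity
  have h1 : ∀ ε : Fin N → Bool, (if K < |∑ l, sg (ε l) * x l| then (1 : ℝ) else 0) ≤
      Real.exp (-(lam * K)) * (Real.exp (0 + ∑ l, sg (ε l) * (lam * x l)) +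
        Real.exp (0 + ∑ l, sg (ε l) * (-(lam * x l)))) := by
    intro ε
    have e1 : ∑ l, sg (ε l) * (lam * x l) = lam * ∑ l, sg (ε l) * x l := by
      rw [Finset.mul_sum]; exact Finset.sum_congr rfl fun l _ => by ring
    have e2 : ∑ l, sg (ε l) * (-(lam * x l)) = -(lam * ∑ l, sg (ε l) * x l) := by
      rw [Finset.mul_sum, ← Finset.sum_neg_distrib]
      exact Finset.sum_congr rfl fun l _ => by ring
    rw [e1, e2, zero_add, zero_add]
    set G := ∑ l, sg (ε l) * x l
    split_ifs with h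
    · rw [mul_add, ← Real.exp_add, ← Real.exp_add]
      rcases abs_cases G with ⟨h2, _⟩ | ⟨h2, _⟩
      · rw [h2] at h
        have h3 : (1 : ℝ) ≤ Real.exp (-(lam * K) + lam * G) := by
          apply Real.one_le_exp
          nlinarith
        linarith [Real.exp_pos (-(lam * K) + -(lam * G))]
      · rw [h2] at h
        have h3 : (1 : ℝ) ≤ Real.exp (-(lam * K) + -(lam * G)) := by
          apply Real.one_le_exp
          nlinarith
        linarith [Real.exp_pos (-(lam * K) + lam * G)]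
    · positivity
  refine (Finset.sum_le_sum fun ε _ => h1 ε).trans ?_
  rw [← Finset.mul_sum, Finset.sum_add_distrib]
  have h2 : (∑ l, (lam * x l) ^ 2) / 2 ≤ lam ^ 2 * V / 2 := by
    have : ∑ l, (lam * x l) ^ 2 = lam ^ 2 * ∑ l, x l ^ 2 := by
      rw [Finset.mul_sum]; exact Finset.sum_congr rfl fun l _ => by ring
    rw [this]
    have := mul_le_mul_of_nonneg_left hV (sq_nonneg lam)
    linarith
  have b1 : ∑ ε : Fin N → Bool, Real.exp (0 + ∑ l, sg (ε l) * (lam * x l)) ≤
      2 ^ N * Real.exp (lam ^ 2 * V / 2) := by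
    refine (sum_exp N 0 _).trans ?_
    gcongr
    rw [zero_add]; exact h2
  have b2 : ∑ ε : Fin N → Bool, Real.exp (0 + ∑ l, sg (ε l) * (-(lam * x l))) ≤
      2 ^ N * Real.exp (lam ^ 2 * V / 2) := by
    refine (sum_exp N 0 _).trans ?_
    gcongr
    simp only [neg_sq]
    rw [zero_add]; exact h2
  have e3 : Real.exp (-(K ^ 2 / (2 * V))) =
      Real.exp (-(lam * K)) * Real.exp (lam ^ 2 * V / 2) := by
    rw [← Real.exp_add, hlam]
    congr 1
    field_simp
    ring
  rw [e3]
  have h3 : (0 : ℝ) < Real.exp (-(lam * K)) := Real.exp_pos _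
  nlinarith [mul_le_mul_of_nonneg_left (add_le_add b1 b2) h3.le]

/-- the balance of the signs -/
theorem bal (N : ℕ) (N' s : ℝ) (hN : (N : ℝ) ≤ N') (hN0 : 0 < N') (hs : 0 ≤ s) :
    ∑ ε : Fin N → Bool, (if ∑ l, sg (ε l) < -s then (1 : ℝ) else 0) ≤
      2 ^ N * Real.exp (-(s ^ 2 / (2 * N'))) := by
  set lam := s / N' with hlam
  have hlam0 : 0 ≤ lam := by positivity
  have h1 : ∀ ε : Fin N → Bool, (if ∑ l, sg (ε l) < -s then (1 : ℝ) else 0) ≤
      Real.exp (-(lam * s)) * Real.exp (0 + ∑ l, sg (ε l) * (-lam)) := by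
    intro ε
    rw [← Finset.sum_mul, zero_add]
    set G := ∑ l, sg (ε l)
    split_ifs with h
    · rw [← Real.exp_add]
      apply Real.one_le_exp
      nlinarith
    · positivity
  refine (Finset.sum_le_sum fun ε _ => h1 ε).trans ?_
  rw [← Finset.mul_sum]
  have b1 : ∑ ε : Fin N → Bool, Real.exp (0 + ∑ l : Fin N, sg (ε l) * (-lam)) ≤
      2 ^ N * Real.exp (lam ^ 2 * N' / 2) := by
    refine (sum_exp N 0 _).trans ?_
    gcongr
    rw [zero_add]
    simp only [neg_sq, Finset.sum_const, Finset.card_univ, Fintype.card_fin, nsmul_eq_mul]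
    have := mul_le_mul_of_nonneg_right hN (sq_nonneg lam)
    linarith
  have e3 : Real.exp (-(s ^ 2 / (2 * N'))) =
      Real.exp (-(lam * s)) * Real.exp (lam ^ 2 * N' / 2) := by
    rw [← Real.exp_add, hlam]
    congr 1
    field_simp
    ring
  rw [e3]
  have h3 : (0 : ℝ) < Real.exp (-(lam * s)) := Real.exp_pos _
  have := mul_le_mul_of_nonneg_left b1 h3.le
  linarith

/-- few small subsets -/
theorem count_subsets {ι : Type*} [DecidableEq ι] (J : Finset ι) (κ : ℝ) (hκ0 : 0 < κ)
    (hκ1 : κ ≤ 1) :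
    (((J.powerset.filter fun R => (R.card : ℝ) ≤ κ * J.card).card : ℕ) : ℝ) ≤
      Real.exp (κ * J.card * (1 + Real.log (1 / κ))) := by
  have hlog : 0 ≤ Real.log (1 / κ) := Real.log_nonneg (by
    rw [le_div_iff₀ hκ0]; linarith)
  have hpt : ∀ R ∈ J.powerset.filter fun R => (R.card : ℝ) ≤ κ * J.card,
      Real.exp (-(κ * J.card * Real.log (1 / κ))) ≤ κ ^ R.card := by
    intro R hR
    have h1 := (Finset.mem_filter.1 hR).2
    have h2 : κ ^ R.card = Real.exp (-(R.card * Real.log (1 / κ))) := by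
      rw [one_div, Real.log_inv, mul_neg, neg_neg, mul_comm, Real.exp_mul, Real.exp_log hκ0,
        Real.rpow_natCast]
    rw [h2]
    apply Real.exp_le_exp.2
    apply neg_le_neg
    exact mul_le_mul_of_nonneg_right h1 hlog
  have h3 : ∑ R ∈ J.powerset, κ ^ R.card = (κ + 1) ^ J.card := by
    have := Finset.sum_pow_mul_eq_add_pow κ 1 J
    simpa using this
  have h4 : ((J.powerset.filter fun R => (R.card : ℝ) ≤ κ * J.card).card : ℝ) *
      Real.exp (-(κ * J.card * Real.log (1 / κ))) ≤ (κ + 1) ^ J.card := by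
    rw [← h3, ← nsmul_eq_mul, ← Finset.sum_const]
    refine (Finset.sum_le_sum hpt).trans ?_
    exact Finset.sum_le_sum_of_subset_of_nonneg (Finset.filter_subset _ _)
      fun R _ _ => by positivity
  have h5 : (κ + 1) ^ J.card ≤ Real.exp (κ * J.card) := by
    have h6 : κ + 1 ≤ Real.exp κ := Real.add_one_le_exp κ
    calc (κ + 1) ^ J.card ≤ Real.exp κ ^ J.card := pow_le_pow_left₀ (by positivity) h6 _
      _ = Real.exp (κ * J.card) := by rw [← Real.exp_nat_mul]; ring_nf
  have h6 : Real.exp (κ * J.card * (1 + Real.log (1 / κ))) =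
      Real.exp (κ * J.card) * Real.exp (κ * J.card * Real.log (1 / κ)) := by
    rw [← Real.exp_add]; ring_nf
  rw [h6]
  have h7 := h4.trans h5
  have h8 : Real.exp (-(κ * J.card * Real.log (1 / κ))) *
      Real.exp (κ * J.card * Real.log (1 / κ)) = 1 := by
    rw [← Real.exp_add]; simp
  calc _ = ((J.powerset.filter fun R => (R.card : ℝ) ≤ κ * J.card).card : ℝ) *
        (Real.exp (-(κ * J.card * Real.log (1 / κ))) *
          Real.exp (κ * J.card * Real.log (1 / κ))) := by rw [h8, mul_one]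
    _ = (((J.powerset.filter fun R => (R.card : ℝ) ≤ κ * J.card).card : ℝ) *
        Real.exp (-(κ * J.card * Real.log (1 / κ)))) *
          Real.exp (κ * J.card * Real.log (1 / κ)) := by ring
    _ ≤ _ := mul_le_mul_of_nonneg_right h7 (Real.exp_pos _).le

end Pool.Agent.Helper72.SD
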