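import Mathlib
import Pool.Agent.Helper6.Helly.DOptQ
import Pool.Agent.Helper6.Helly.CoreE

/-!
The dual frame of a D-optimal multiset, in Euclidean space (MP_882a21_co, symmetric case); the
argument of helper22 with another penalty.
-/

set_option autoImplicit false

namespace Pool.Agent.Helper72.SD

open scoped BigOperators Matrix RealInnerProductSpace

open Pool.Agent.Helper6.Helly (gm doptQ inner_eq_dot)

theorem frame {d : ℕ} (A : Finset (EuclideanSpace ℝ (Fin d)))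
    (hspan : ∀ x : EuclideanSpace ℝ (Fin d), (∀ p ∈ A, ⟪p, x⟫ = 0) → x = 0) :
    ∃ (n : ℕ), d ≤ n ∧ (n : ℝ) * (16383 / 16384) ≤ d ∧
      ∃ (t ts : Fin n → EuclideanSpace ℝ (Fin d)) (P : Matrix (Fin n) (Fin n) ℝ),
        (∀ i, t i ∈ A) ∧ Pᵀ = P ∧ P * P = P ∧ (∀ i, P i i ≤ 1 / 16384) ∧
        P.trace = ((n - d : ℕ) : ℝ) ∧
        (∀ Z : Fin n → ℝ, P *ᵥ Z = Z → ∀ y, ∑ i, Z i * ⟪t i, y⟫ = 0) ∧
        (∀ y, ∑ i, ⟪t i, y⟫ • ts i = y) ∧
        (∀ a ∈ A, ∑ i, ⟪ts i, a⟫ ^ 2 ≤ 16383) := by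
  classical
  set A' : Finset (Fin d → ℝ) := A.image (fun p => p.ofLp) with hA'
  have hspan' : Submodule.span ℝ (A' : Set (Fin d → ℝ)) = ⊤ := by
    have h1 : Submodule.span ℝ (A : Set (EuclideanSpace ℝ (Fin d))) = ⊤ := by
      rw [← Submodule.orthogonal_eq_bot_iff, Submodule.eq_bot_iff]
      intro x hx
      apply hspan
      intro p hp
      exact (Submodule.mem_orthogonal _ _).1 hx p (Submodule.subset_span hp)
    have h2 : (A' : Set (Fin d → ℝ)) =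
        (WithLp.linearEquiv 2 ℝ (Fin d → ℝ)) '' (A : Set (EuclideanSpace ℝ (Fin d))) := by
      rw [hA', Finset.coe_image]
      rfl
    have h3 := Submodule.span_image (R := ℝ) (s := (A : Set (EuclideanSpace ℝ (Fin d))))
      (WithLp.linearEquiv 2 ℝ (Fin d → ℝ)).toLinearMap
    rw [h2]
    refine h3.trans ?_
    rw [h1, Submodule.map_top]
    exact LinearEquiv.range _
  obtain ⟨n, hn1, hn2, t, htA, hPD, hlev, _, hadd⟩ := doptQ A' hspan' 16384 (by norm_num)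
  set M := gm t with hM
  have hunit : IsUnit M.det := hPD.det_pos.ne'.isUnit
  set X := M⁻¹ with hX
  have hXPD : X.PosDef := hPD.inv
  have hXs : Xᵀ = X := by
    have := hXPD.isHermitian
    simpa [Matrix.IsHermitian, Matrix.conjTranspose_eq_transpose_of_trivial] using this
  set G : Matrix (Fin n) (Fin d) ℝ := Matrix.of t with hG
  have hGG : Gᵀ * G = M := rfl
  have hXM : X * M = 1 := Matrix.nonsing_inv_mul _ hunit
  have hMX : M * X = 1 := Matrix.mul_nonsing_inv _ hunit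
  set Q : Matrix (Fin n) (Fin n) ℝ := G * X * Gᵀ with hQ
  have hQs : Qᵀ = Q := by
    rw [hQ, Matrix.transpose_mul, Matrix.transpose_mul, Matrix.transpose_transpose, hXs,
      Matrix.mul_assoc]
  have hQi : Q * Q = Q := by
    calc Q * Q = G * X * (Gᵀ * G) * X * Gᵀ := by simp only [hQ, Matrix.mul_assoc]
      _ = G * (X * M) * X * Gᵀ := by rw [hGG]; simp only [Matrix.mul_assoc]
      _ = Q := by rw [hXM, Matrix.mul_one]
  set P : Matrix (Fin n) (Fin n) ℝ := 1 - Q with hP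
  have hPs : Pᵀ = P := by rw [hP, Matrix.transpose_sub, Matrix.transpose_one, hQs]
  have hPi : P * P = P := by
    rw [hP, Matrix.sub_mul, Matrix.mul_sub, Matrix.mul_sub, Matrix.one_mul, Matrix.mul_one,
      hQi]
    simp
  have hQdiag : ∀ i, Q i i = t i ⬝ᵥ X *ᵥ t i := by
    intro i
    rw [hQ, Matrix.mul_assoc, Matrix.mul_apply, dotProduct]
    refine Finset.sum_congr rfl fun a _ => ?_
    rw [Matrix.mul_apply, Matrix.mulVec, dotProduct]
    rfl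
  have hPdiag : ∀ i, P i i ≤ 1 / 16384 := by
    intro i
    rw [hP, Matrix.sub_apply, Matrix.one_apply_eq, hQdiag]
    linarith [hlev i]
  have hPtr : P.trace = ((n - d : ℕ) : ℝ) := by
    rw [hP, Matrix.trace_sub, Matrix.trace_one, hQ, Matrix.trace_mul_comm, ← Matrix.mul_assoc,
      hGG, hMX, Matrix.trace_one, Fintype.card_fin, Fintype.card_fin, Nat.cast_sub hn1]
  have hdot : ∀ (u : Fin n → ℝ) (v : Fin d → ℝ), u ⬝ᵥ (G *ᵥ v) = (Gᵀ *ᵥ u) ⬝ᵥ v := by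
    intro u v
    rw [Matrix.dotProduct_mulVec, Matrix.mulVec_transpose]
  refine ⟨n, hn1, by norm_num at hn2 ⊢; linarith, fun i => WithLp.toLp 2 (t i),
    fun i => WithLp.toLp 2 (X *ᵥ t i), P, ?_, hPs, hPi, hPdiag, hPtr, ?_, ?_, ?_⟩
  · intro i
    obtain ⟨p, hp, hpt⟩ := Finset.mem_image.1 (htA i)
    have h : WithLp.toLp 2 (t i) = p := by
      rw [← hpt]
    show WithLp.toLp 2 (t i) ∈ A
    rw [h]; exact hp
  · intro Z hPZ y
    have hGZ : Gᵀ *ᵥ Z = 0 := by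
      have h1 : Q *ᵥ Z = 0 := by
        have h2 : P *ᵥ Z = Z - Q *ᵥ Z := by rw [hP, Matrix.sub_mulVec, Matrix.one_mulVec]
        rw [h2] at hPZ
        exact sub_eq_self.1 hPZ
      have h3 : Gᵀ *ᵥ (Q *ᵥ Z) = Gᵀ *ᵥ Z := by
        rw [Matrix.mulVec_mulVec, hQ, ← Matrix.mul_assoc, ← Matrix.mul_assoc, hGG, hMX,
          Matrix.one_mul]
      rw [← h3, h1, Matrix.mulVec_zero]
    have h1 : ∑ i, Z i * ⟪WithLp.toLp 2 (t i), y⟫ = Z ⬝ᵥ (G *ᵥ y.ofLp) := by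
      rw [dotProduct]
      refine Finset.sum_congr rfl fun i _ => ?_
      rw [inner_eq_dot]
      rfl
    rw [h1, hdot, hGZ, zero_dotProduct]
  · intro y
    have h1 : ∑ i, ⟪WithLp.toLp 2 (t i), y⟫ • WithLp.toLp 2 (X *ᵥ t i) =
        WithLp.toLp 2 (X *ᵥ (Gᵀ *ᵥ (G *ᵥ y.ofLp))) := by
      have h2 : Gᵀ *ᵥ (G *ᵥ y.ofLp) = ∑ i, (t i ⬝ᵥ y.ofLp) • t i := by
        ext a
        rw [Matrix.mulVec_transpose, Matrix.vecMul, dotProduct, Finset.sum_apply]
        refine Finset.sum_congr rfl fun i _ => ?_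
        rw [Pi.smul_apply, smul_eq_mul]
        rfl
      rw [h2, Matrix.mulVec_sum, WithLp.toLp_sum]
      refine Finset.sum_congr rfl fun i _ => ?_
      rw [inner_eq_dot, Matrix.mulVec_smul, WithLp.toLp_smul]
    rw [h1, Matrix.mulVec_mulVec, Matrix.mulVec_mulVec, Matrix.mul_assoc, hGG, hXM,
      Matrix.one_mulVec]
  · intro a ha
    have h1 := hadd a.ofLp (Finset.mem_image_of_mem _ ha)
    have h2 : ∑ i, ⟪WithLp.toLp 2 (X *ᵥ t i), a⟫ ^ 2 = a.ofLp ⬝ᵥ X *ᵥ a.ofLp := by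
      have h3 : ∀ i, ⟪WithLp.toLp 2 (X *ᵥ t i), a⟫ = (G *ᵥ (X *ᵥ a.ofLp)) i := by
        intro i
        rw [inner_eq_dot]
        show (X *ᵥ t i) ⬝ᵥ a.ofLp = t i ⬝ᵥ (X *ᵥ a.ofLp)
        rw [Matrix.dotProduct_mulVec, ← Matrix.mulVec_transpose, hXs]
      have h4 : ∑ i, ⟪WithLp.toLp 2 (X *ᵥ t i), a⟫ ^ 2 =
          (G *ᵥ (X *ᵥ a.ofLp)) ⬝ᵥ (G *ᵥ (X *ᵥ a.ofLp)) := by
        rw [dotProduct]
        refine Finset.sum_congr rfl fun i _ => ?_
        rw [h3, sq]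
      rw [h4, hdot, Matrix.mulVec_mulVec, Matrix.mulVec_mulVec, hGG, hMX, Matrix.one_mulVec]
    rw [h2]
    linarith

end Pool.Agent.Helper72.SD
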