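import Mathlib
import Pool.Agent.Helper72.SD.Dom

/-!
# The thinning step (MP_882a21_co, symmetric case without the logarithm)

Out of `N` vectors about one half is kept, so that twice the sum of the absolute values over the
kept ones is at least the full sum up to a loss which does not contain a logarithm of the dimension.
A few coordinates are made harmless.
-/

set_option autoImplicit false

namespace Pool.Agent.Helper72.SD

open Finset
open Pool.Agent.Helper15.QH (sg sg_true sg_false sum_cons sum_exp sum_abs_le)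

/-- the number of kept elements in terms of the signs -/
theorem sum_sg {N : ℕ} (ε : Fin N → Bool) :
    ∑ l, sg (ε l) = (N : ℝ) - 2 * ((Finset.univ.filter fun l => ε l = false).card : ℝ) := by
  have h1 : ∀ l, sg (ε l) = 1 - 2 * (if ε l = false then (1 : ℝ) else 0) := by
    intro l
    cases h : ε l <;> norm_num [sg]
  rw [Finset.sum_congr rfl fun l _ => h1 l, Finset.sum_sub_distrib, ← Finset.mul_sum,
    Finset.sum_boole]
  simp

/-- the sum over the kept elements in terms of the signs -/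
theorem sum_sg_mul {N : ℕ} (ε : Fin N → Bool) (w : Fin N → ℝ) :
    ∑ l, sg (ε l) * w l = ∑ l, w l - 2 * ∑ l ∈ Finset.univ.filter (fun l => ε l = false), w l := by
  have h1 : ∀ l, sg (ε l) * w l = w l - 2 * (if ε l = false then w l else 0) := by
    intro l
    cases h : ε l <;> norm_num [sg]
    ring
  rw [Finset.sum_congr rfl fun l _ => h1 l, Finset.sum_sub_distrib, ← Finset.mul_sum,
    Finset.sum_filter]

/-- The event used in the pigeonhole argument has probability at least one half. -/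
theorem good_event {n N : ℕ} (hn : 0 < n) (x : Fin N → Fin n → ℝ) (J : Finset (Fin n))
    (V C : ℝ) (hV0 : 0 < V) (hC0 : 0 < C) (hV : ∀ i ∈ J, ∑ l, x l i ^ 2 ≤ V)
    (hC : ∑ l, ∑ i, x l i ^ 2 ≤ C) (z : ℝ) (hz : 0 ≤ z) :
    (open Classical in
      (2 : ℝ) ^ N / 2 ≤ ∑ ε : Fin N → Bool,
        (if (((J.filter fun i => √(2 * V * z) < |∑ l, sg (ε l) * x l i|).card : ℕ) : ℝ) ≤
            8 * Real.exp (-z) * J.card ∧
          ∑ i, |∑ l, sg (ε l) * x l i| ≤ 4 * √(n * C) then (1 : ℝ) else 0)) := by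
  classical
  set K := √(2 * V * z) with hK
  have hK0 : 0 ≤ K := Real.sqrt_nonneg _
  have hK2 : K ^ 2 = 2 * V * z := Real.sq_sqrt (by positivity)
  have hKV : K ^ 2 / (2 * V) = z := by rw [hK2]; field_simp
  set κ := 8 * Real.exp (-z) with hκ
  have hκ0 : 0 < κ := by positivity
  have h2N : (0 : ℝ) < 2 ^ N := by positivity
  -- first bad event
  have hbad1 : ∑ ε : Fin N → Bool,
      (if κ * J.card < (((J.filter fun i => K < |∑ l, sg (ε l) * x l i|).card : ℕ) : ℝ)
        then (1 : ℝ) else 0) ≤ 2 ^ N / 4 := by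
    rcases J.eq_empty_or_nonempty with hJ | hJ
    · rw [hJ]
      simp only [Finset.filter_empty, Finset.card_empty, Nat.cast_zero, mul_zero, lt_self_iff_false,
        if_false, Finset.sum_const_zero]
      positivity
    · have hJc : (0 : ℝ) < J.card := by exact_mod_cast Finset.card_pos.2 hJ
      have h1 : ∀ ε : Fin N → Bool,
          (if κ * J.card < (((J.filter fun i => K < |∑ l, sg (ε l) * x l i|).card : ℕ) : ℝ)
            then (1 : ℝ) else 0) * (κ * J.card) ≤
          ∑ i ∈ J, (if K < |∑ l, sg (ε l) * x l i| then (1 : ℝ) else 0) := by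
        intro ε
        rw [Finset.sum_boole]
        split_ifs with h
        · rw [one_mul]; exact h.le
        · rw [zero_mul]; positivity
      have h2 := Finset.sum_le_sum fun (ε : Fin N → Bool) (_ : ε ∈ Finset.univ) => h1 ε
      rw [← Finset.sum_mul, Finset.sum_comm] at h2
      have h3 : ∑ i ∈ J, ∑ ε : Fin N → Bool,
          (if K < |∑ l, sg (ε l) * x l i| then (1 : ℝ) else 0) ≤
          ∑ _i ∈ J, 2 ^ N * (2 * Real.exp (-z)) := by
        apply Finset.sum_le_sum
        intro i hi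
        have := tail (fun l => x l i) V (hV i hi) hV0 K hK0
        rw [hKV] at this
        exact this
      rw [Finset.sum_const, nsmul_eq_mul] at h3
      have h4 := h2.trans h3
      have h5 : (J.card : ℝ) * (2 ^ N * (2 * Real.exp (-z))) = (2 ^ N / 4) * (κ * J.card) := by
        rw [hκ]; ring
      rw [h5] at h4
      exact le_of_mul_le_mul_right h4 (by positivity)
  -- second bad event
  have hW0 : 0 < √((n : ℝ) * C) := Real.sqrt_pos.2 (by positivity)
  have hbad2 : ∑ ε : Fin N → Bool,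
      (if 4 * √(n * C) < ∑ i, |∑ l, sg (ε l) * x l i| then (1 : ℝ) else 0) ≤ 2 ^ N / 4 := by
    have h1 : ∀ ε : Fin N → Bool,
        (if 4 * √(n * C) < ∑ i, |∑ l, sg (ε l) * x l i| then (1 : ℝ) else 0) * (4 * √(n * C)) ≤
        ∑ i, |∑ l, sg (ε l) * x l i| := by
      intro ε
      split_ifs with h
      · rw [one_mul]; exact h.le
      · rw [zero_mul]; exact Finset.sum_nonneg fun _ _ => abs_nonneg _
    have h2 := Finset.sum_le_sum fun (ε : Fin N → Bool) (_ : ε ∈ Finset.univ) => h1 ε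
    rw [← Finset.sum_mul] at h2
    have h3 := h2.trans (sum_abs_le x C hC)
    have h4 : (2 : ℝ) ^ N * √(n * C) = (2 ^ N / 4) * (4 * √(n * C)) := by ring
    rw [h4] at h3
    exact le_of_mul_le_mul_right h3 (by positivity)
  have htot : (2 : ℝ) ^ N = ∑ _ε : Fin N → Bool, (1 : ℝ) := by
    rw [Finset.sum_const, nsmul_eq_mul, mul_one, card_bool]
  have hpt : ∀ ε : Fin N → Bool, (1 : ℝ) ≤
      (if (((J.filter fun i => K < |∑ l, sg (ε l) * x l i|).card : ℕ) : ℝ) ≤ κ * J.card ∧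
          ∑ i, |∑ l, sg (ε l) * x l i| ≤ 4 * √(n * C) then (1 : ℝ) else 0) +
      ((if κ * J.card < (((J.filter fun i => K < |∑ l, sg (ε l) * x l i|).card : ℕ) : ℝ)
        then (1 : ℝ) else 0) +
      (if 4 * √(n * C) < ∑ i, |∑ l, sg (ε l) * x l i| then (1 : ℝ) else 0)) := by
    intro ε
    by_cases h1 : (((J.filter fun i => K < |∑ l, sg (ε l) * x l i|).card : ℕ) : ℝ) ≤ κ * J.card
    · by_cases h2 : ∑ i, |∑ l, sg (ε l) * x l i| ≤ 4 * √(n * C)
      · rw [if_pos ⟨h1, h2⟩, if_neg (not_lt.2 h1), if_neg (not_lt.2 h2)]; norm_num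
      · rw [if_neg (fun h => h2 h.2), if_neg (not_lt.2 h1), if_pos (not_le.1 h2)]; norm_num
    · rw [if_neg (fun h => h1 h.1), if_pos (not_le.1 h1)]
      split_ifs <;> norm_num
  have hsum := Finset.sum_le_sum fun (ε : Fin N → Bool) (_ : ε ∈ Finset.univ) => hpt ε
  rw [Finset.sum_add_distrib, Finset.sum_add_distrib, ← htot] at hsum
  linarith

/-- **Thinning.** -/
theorem thin {n N : ℕ} (hn : 0 < n) (x : Fin N → Fin n → ℝ) (J : Finset (Fin n))
    (V C : ℝ) (hV0 : 0 < V) (hC0 : 0 < C) (hV : ∀ i ∈ J, ∑ l, x l i ^ 2 ≤ V)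
    (hC : ∑ l, ∑ i, x l i ^ 2 ≤ C) (z : ℝ) (hz : 3 ≤ z) (N' s : ℝ) (hN : (N : ℝ) ≤ N')
    (hN0 : 0 < N') (hs0 : 0 ≤ s)
    (hs : Real.log 2 + 8 * Real.exp (-z) * J.card * z < s ^ 2 / (2 * N'))
    (ρ Λ : ℝ) (hρ : 0 ≤ ρ) :
    ∃ R ⊆ J, (R.card : ℝ) ≤ 8 * Real.exp (-z) * J.card ∧ ∃ T : Finset (Fin N),
      (T.card : ℝ) ≤ (N' + s) / 2 ∧ ∀ Y : Fin n → ℝ, (∀ i, i ∉ J \ R → |Y i| ≤ ρ) →
        ∑ i ∈ J \ R, |Y i| ≤ Λ →
        ∑ l, |∑ i, x l i * Y i| - (Λ * √(2 * V * z) + 4 * ρ * √(n * C)) ≤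
          2 * ∑ l ∈ T, |∑ i, x l i * Y i| := by
  classical
  set K := √(2 * V * z) with hK
  have hK0 : 0 ≤ K := Real.sqrt_nonneg _
  set κ := 8 * Real.exp (-z) with hκ
  have hκ0 : 0 < κ := by positivity
  have he2 : (2 : ℝ) < Real.exp 1 := by have := Real.exp_one_gt_d9; linarith
  have he1 : Real.exp 1 < 3 := by have := Real.exp_one_lt_d9; linarith
  have hez : (8 : ℝ) ≤ Real.exp z := by
    calc (8 : ℝ) = 2 ^ 3 := by norm_num
      _ ≤ Real.exp 1 ^ 3 := pow_le_pow_left₀ (by norm_num) he2.le 3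
      _ = Real.exp 3 := by rw [← Real.exp_nat_mul]; norm_num
      _ ≤ Real.exp z := Real.exp_le_exp.2 hz
  have hκ1 : κ ≤ 1 := by
    rw [hκ, Real.exp_neg, ← div_eq_mul_inv, div_le_one (Real.exp_pos _)]
    exact hez
  have hlogκ : 1 + Real.log (1 / κ) ≤ z := by
    have h1 : Real.log (1 / κ) = z - Real.log 8 := by
      rw [hκ, one_div, Real.log_inv, Real.log_mul (by norm_num) (Real.exp_pos _).ne',
        Real.log_exp]
      ring
    have h2 : 1 ≤ Real.log 8 := by
      rw [Real.le_log_iff_exp_le (by norm_num)]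
      linarith
    linarith
  have h2N : (0 : ℝ) < 2 ^ N := by positivity
  set Rf : (Fin N → Bool) → Finset (Fin n) := fun ε =>
    J.filter fun i => K < |∑ l, sg (ε l) * x l i| with hRf
  set good : (Fin N → Bool) → Prop := fun ε => ((Rf ε).card : ℝ) ≤ κ * J.card ∧
    ∑ i, |∑ l, sg (ε l) * x l i| ≤ 4 * √(n * C) with hgood
  have hge : (2 : ℝ) ^ N / 2 ≤ ∑ ε : Fin N → Bool, (if good ε then (1 : ℝ) else 0) :=
    good_event hn x J V C hV0 hC0 hV hC z (by linarith)
  -- pigeonhole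
  set P := J.powerset.filter fun R => (R.card : ℝ) ≤ κ * J.card with hP
  have hPc : ((P.card : ℕ) : ℝ) ≤ Real.exp (κ * J.card * z) := by
    refine (count_subsets J κ hκ0 hκ1).trans ?_
    apply Real.exp_le_exp.2
    exact mul_le_mul_of_nonneg_left hlogκ (by positivity)
  have hfib : ∑ ε : Fin N → Bool, (if good ε then (1 : ℝ) else 0) =
      ∑ R ∈ P, ∑ ε : Fin N → Bool, (if good ε ∧ Rf ε = R then (1 : ℝ) else 0) := by
    rw [Finset.sum_comm]
    apply Finset.sum_congr rfl
    intro ε _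
    by_cases h : good ε
    · have h1 : Rf ε ∈ P := by
        rw [hP, Finset.mem_filter, Finset.mem_powerset]
        exact ⟨Finset.filter_subset _ _, h.1⟩
      rw [if_pos h, Finset.sum_eq_single_of_mem _ h1]
      · rw [if_pos ⟨h, rfl⟩]
      · intro R _ hR
        rw [if_neg]
        rintro ⟨-, h3⟩
        exact hR h3.symm
    · rw [if_neg h]
      symm
      apply Finset.sum_eq_zero
      intro R _
      rw [if_neg]
      rintro ⟨h3, -⟩
      exact h h3
  obtain ⟨R, hRP, hR⟩ : ∃ R ∈ P, (2 : ℝ) ^ N / 2 * Real.exp (-(κ * J.card * z)) ≤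
      ∑ ε : Fin N → Bool, (if good ε ∧ Rf ε = R then (1 : ℝ) else 0) := by
    by_contra hcon
    push Not at hcon
    have hPne : P.Nonempty := by
      refine ⟨∅, ?_⟩
      rw [hP, Finset.mem_filter]
      refine ⟨Finset.empty_mem_powerset _, ?_⟩
      simp only [Finset.card_empty, Nat.cast_zero]
      positivity
    have h1 := Finset.sum_lt_sum_of_nonempty hPne hcon
    rw [← hfib, Finset.sum_const, nsmul_eq_mul] at h1
    have h2 : (P.card : ℝ) * (2 ^ N / 2 * Real.exp (-(κ * J.card * z))) ≤ 2 ^ N / 2 := by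
      calc (P.card : ℝ) * (2 ^ N / 2 * Real.exp (-(κ * J.card * z))) ≤
            Real.exp (κ * J.card * z) * (2 ^ N / 2 * Real.exp (-(κ * J.card * z))) :=
            mul_le_mul_of_nonneg_right hPc (by positivity)
        _ = 2 ^ N / 2 * (Real.exp (κ * J.card * z) * Real.exp (-(κ * J.card * z))) := by ring
        _ = 2 ^ N / 2 := by rw [← Real.exp_add]; simp
    linarith
  have hRJ : R ⊆ J := Finset.mem_powerset.1 (Finset.mem_filter.1 hRP).1
  have hRc : (R.card : ℝ) ≤ κ * J.card := (Finset.mem_filter.1 hRP).2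
  set S : Set (Fin n → ℝ) := {Y | (∀ i, i ∉ J \ R → |Y i| ≤ ρ) ∧ ∑ i ∈ J \ R, |Y i| ≤ Λ} with hS
  set c : ℝ := Λ * K + 4 * ρ * √(n * C) with hc
  -- the linear process
  have hlin : ∀ ε : Fin N → Bool, good ε ∧ Rf ε = R →
      ∀ Y ∈ S, (0 : ℝ) + ∑ l, sg (ε l) * ∑ i, x l i * Y i ≤ c := by
    rintro ε ⟨⟨_, h2⟩, h3⟩ Y ⟨hY1, hY2⟩
    have e1 : ∑ l, sg (ε l) * ∑ i, x l i * Y i = ∑ i, (∑ l, sg (ε l) * x l i) * Y i := by
      simp_rw [Finset.mul_sum, Finset.sum_mul]
      rw [Finset.sum_comm]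
      exact Finset.sum_congr rfl fun i _ => Finset.sum_congr rfl fun l _ => by ring
    rw [zero_add, e1]
    set G : Fin n → ℝ := fun i => ∑ l, sg (ε l) * x l i with hG
    have h4 : ∀ i, G i * Y i ≤ (if i ∈ J \ R then K * |Y i| else 0) + ρ * |G i| := by
      intro i
      have h5 : G i * Y i ≤ |G i| * |Y i| := by rw [← abs_mul]; exact le_abs_self _
      split_ifs with hi
      · have h6 : |G i| ≤ K := by
          by_contra hcon
          push Not at hcon
          obtain ⟨hiJ, hiR⟩ := Finset.mem_sdiff.1 hi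
          apply hiR
          rw [← h3]
          exact Finset.mem_filter.2 ⟨hiJ, hcon⟩
        have h7 : |G i| * |Y i| ≤ K * |Y i| := mul_le_mul_of_nonneg_right h6 (abs_nonneg _)
        have h8 : 0 ≤ ρ * |G i| := by positivity
        linarith
      · have h6 := mul_le_mul_of_nonneg_left (hY1 i hi) (abs_nonneg (G i))
        linarith
    calc ∑ i, G i * Y i ≤ ∑ i, ((if i ∈ J \ R then K * |Y i| else 0) + ρ * |G i|) :=
          Finset.sum_le_sum fun i _ => h4 i
      _ = K * ∑ i ∈ J \ R, |Y i| + ρ * ∑ i, |G i| := by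
          rw [Finset.sum_add_distrib, Finset.sum_ite_mem, Finset.univ_inter, ← Finset.mul_sum,
            ← Finset.mul_sum]
      _ ≤ K * Λ + ρ * (4 * √(n * C)) :=
          add_le_add (mul_le_mul_of_nonneg_left hY2 hK0) (mul_le_mul_of_nonneg_left h2 hρ)
      _ = c := by rw [hc]; ring
  have hev : ∑ ε : Fin N → Bool, (if good ε ∧ Rf ε = R then (1 : ℝ) else 0) ≤
      ∑ ε : Fin N → Bool,
        (if ∀ Y ∈ S, (0 : ℝ) + ∑ l, sg (ε l) * ∑ i, x l i * Y i ≤ c then (1 : ℝ) else 0) := by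
    apply Finset.sum_le_sum
    intro ε _
    by_cases h : good ε ∧ Rf ε = R
    · rw [if_pos h, if_pos (hlin ε h)]
    · rw [if_neg h]; split_ifs <;> norm_num
  have hdom := dom S c N (fun _ => (0 : ℝ)) (fun l Y => ∑ i, x l i * Y i)
  have hbal := bal N N' s hN hN0 hs0
  have hsmall : (2 : ℝ) ^ N * Real.exp (-(s ^ 2 / (2 * N'))) <
      2 ^ N / 2 * Real.exp (-(κ * J.card * z)) := by
    have h1 : Real.exp (-(s ^ 2 / (2 * N'))) < Real.exp (-(Real.log 2 + κ * J.card * z)) := by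
      apply Real.exp_lt_exp.2
      linarith
    have h2 : Real.exp (-(Real.log 2 + κ * J.card * z)) =
        1 / 2 * Real.exp (-(κ * J.card * z)) := by
      rw [neg_add, Real.exp_add, Real.exp_neg (Real.log 2), Real.exp_log (by norm_num)]
      norm_num
    rw [h2] at h1
    have h3 := mul_lt_mul_of_pos_left h1 h2N
    calc _ < _ := h3
      _ = _ := by ring
  -- a good vector of signs
  obtain ⟨ε, hε1, hε2⟩ : ∃ ε : Fin N → Bool,
      (∀ Y ∈ S, (0 : ℝ) + ∑ l, sg (ε l) * |∑ i, x l i * Y i| ≤ c) ∧ -s ≤ ∑ l, sg (ε l) := by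
    by_contra hcon
    push Not at hcon
    have h1 : ∑ ε : Fin N → Bool,
        (if ∀ Y ∈ S, (0 : ℝ) + ∑ l, sg (ε l) * |∑ i, x l i * Y i| ≤ c then (1 : ℝ) else 0) ≤
        ∑ ε : Fin N → Bool, (if ∑ l, sg (ε l) < -s then (1 : ℝ) else 0) := by
      apply Finset.sum_le_sum
      intro ε _
      by_cases h : ∀ Y ∈ S, (0 : ℝ) + ∑ l, sg (ε l) * |∑ i, x l i * Y i| ≤ c
      · rw [if_pos h, if_pos (hcon ε h)]
      · rw [if_neg h]; split_ifs <;> norm_num
    linarith
  refine ⟨R, hRJ, hRc, Finset.univ.filter (fun l => ε l = false), ?_, ?_⟩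
  · have h1 := sum_sg ε
    linarith
  · intro Y hY1 hY2
    have h1 := hε1 Y ⟨hY1, hY2⟩
    rw [zero_add, sum_sg_mul] at h1
    linarith

end Pool.Agent.Helper72.SD
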