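import Mathlib
import Pool.Agent.Helper72.SD.Thin

/-!
# Iterated thinning without logarithm (MP_882a21_co, symmetric case)
-/

set_option autoImplicit false

namespace Pool.Agent.Helper72.SD

open Finset

theorem exp_twelve : (150000 : ℝ) ≤ Real.exp 12 := by
  have h : (2.7 : ℝ) ≤ Real.exp 1 := by have := Real.exp_one_gt_d9; linarith
  calc (150000 : ℝ) ≤ 2.7 ^ 12 := by norm_num
    _ ≤ Real.exp 1 ^ 12 := pow_le_pow_left₀ (by norm_num) h 12
    _ = Real.exp 12 := by rw [← Real.exp_nat_mul]; norm_num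

theorem exp_neg_level (t : ℕ) : Real.exp (-(12 + (t : ℝ))) ≤ 1 / 150000 * (4 / 5) ^ t := by
  have h1 : Real.exp (-(12 + (t : ℝ))) = Real.exp (-12) * Real.exp (-1) ^ t := by
    rw [← Real.exp_nat_mul, ← Real.exp_add]; ring_nf
  have h2 : Real.exp (-12) ≤ 1 / 150000 := by
    rw [Real.exp_neg, ← one_div]
    exact one_div_le_one_div_of_le (by norm_num) exp_twelve
  have h3 : Real.exp (-1) ≤ 4 / 5 := by
    rw [Real.exp_neg, ← one_div, div_le_div_iff₀ (Real.exp_pos _) (by norm_num)]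
    have := Real.exp_one_gt_d9
    linarith
  rw [h1]
  exact mul_le_mul h2 (pow_le_pow_left₀ (Real.exp_pos _).le h3 t) (by positivity) (by norm_num)

theorem exp_neg_mul_level (t : ℕ) :
    (12 + (t : ℝ)) * Real.exp (-(12 + (t : ℝ))) ≤ 12 / 150000 := by
  have h1 : (12 + (t : ℝ)) ≤ 12 * Real.exp t := by
    have h2 := Real.add_one_le_exp (t : ℝ)
    have h3 : (0 : ℝ) ≤ t := Nat.cast_nonneg t
    linarith
  have h2 : Real.exp (-(12 + (t : ℝ))) = Real.exp (-12) * Real.exp (-(t : ℝ)) := by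
    rw [← Real.exp_add]; ring_nf
  have h3 : Real.exp (-12) ≤ 1 / 150000 := by
    rw [Real.exp_neg, ← one_div]
    exact one_div_le_one_div_of_le (by norm_num) exp_twelve
  have h4 : Real.exp (t : ℝ) * Real.exp (-(t : ℝ)) = 1 := by rw [← Real.exp_add]; simp
  calc (12 + (t : ℝ)) * Real.exp (-(12 + (t : ℝ))) ≤
        12 * Real.exp t * Real.exp (-(12 + (t : ℝ))) :=
        mul_le_mul_of_nonneg_right h1 (Real.exp_pos _).le
    _ = 12 * Real.exp (-12) * (Real.exp t * Real.exp (-(t : ℝ))) := by rw [h2]; ring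
    _ = 12 * Real.exp (-12) := by rw [h4, mul_one]
    _ ≤ _ := by linarith

theorem level_growth (t : ℕ) : (5 / 8 : ℝ) ^ t * (1 + t / 12) ≤ ((7 / 8) ^ t) ^ 2 := by
  have h1 : (1 + (t : ℝ) / 12) ≤ (49 / 40) ^ t := by
    have h2 := one_add_mul_le_pow (show (-2 : ℝ) ≤ 9 / 40 by norm_num) t
    have h3 : (0 : ℝ) ≤ t := Nat.cast_nonneg t
    have h4 : (1 + 9 / 40 : ℝ) = 49 / 40 := by norm_num
    rw [h4] at h2
    linarith
  calc (5 / 8 : ℝ) ^ t * (1 + t / 12) ≤ (5 / 8) ^ t * (49 / 40) ^ t :=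
        mul_le_mul_of_nonneg_left h1 (by positivity)
    _ = ((7 / 8) ^ t) ^ 2 := by rw [← mul_pow, ← pow_mul, mul_comm t 2, pow_mul]; norm_num

theorem losses (C2 : ℝ) (hC2 : 0 < C2) (n m : ℕ) (hm0 : (0 : ℝ) < m) (ρ Λ : ℝ) (hρ : 0 ≤ ρ)
    (hΛ : 0 ≤ Λ) (E1 E2 : ℝ) (hE1 : Λ * √(384 * C2) / m ≤ E1)
    (hE2 : 4 * ρ * √(2 * n * C2 / m) ≤ E2) (t : ℕ) :
    (Λ * √(2 * (16 * C2 * (5 / 2) ^ t) * (12 + (t : ℝ))) +
      4 * ρ * √(n * (C2 * (2 * m * 2 ^ t)))) / (2 ^ t * m) ≤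
      (7 / 8) ^ t * E1 + (3 / 4) ^ t * E2 := by
  have h2t : (0 : ℝ) < 2 ^ t := by positivity
  have hl1 : √(2 * (16 * C2 * (5 / 2) ^ t) * (12 + (t : ℝ))) ≤
      √(384 * C2) * ((7 / 8) ^ t * 2 ^ t) := by
    have h5 : 2 * (16 * C2 * (5 / 2) ^ t) * (12 + (t : ℝ)) ≤
        (384 * C2) * ((7 / 8) ^ t * 2 ^ t) ^ 2 := by
      have h6 := level_growth t
      have h7 : 2 * (16 * C2 * (5 / 2) ^ t) * (12 + (t : ℝ)) =
          (384 * C2) * ((5 / 8) ^ t * (1 + (t : ℝ) / 12)) * (2 ^ t) ^ 2 := by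
        have e1 : (5 / 2 : ℝ) ^ t = (5 / 8) ^ t * (2 ^ t) ^ 2 := by
          rw [← pow_mul, mul_comm t 2, pow_mul, ← mul_pow]
          norm_num
        rw [e1]
        ring
      rw [h7, mul_pow]
      have h8 : (0 : ℝ) ≤ 384 * C2 := by positivity
      calc (384 * C2) * ((5 / 8) ^ t * (1 + (t : ℝ) / 12)) *
          (2 ^ t) ^ 2 ≤ (384 * C2) * ((7 / 8) ^ t) ^ 2 * (2 ^ t) ^ 2 := by
            apply mul_le_mul_of_nonneg_right _ (by positivity)
            exact mul_le_mul_of_nonneg_left h6 h8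
        _ = _ := by ring
    calc √(2 * (16 * C2 * (5 / 2) ^ t) * (12 + (t : ℝ))) ≤
          √((384 * C2) * ((7 / 8) ^ t * 2 ^ t) ^ 2) := Real.sqrt_le_sqrt h5
      _ = _ := by
        rw [Real.sqrt_mul (by positivity), Real.sqrt_sq (by positivity)]
  have hl2 : √(n * (C2 * (2 * m * 2 ^ t))) ≤
      √(2 * n * C2 / m) * (m * ((3 / 4) ^ t * 2 ^ t)) := by
    have h5 : n * (C2 * (2 * m * 2 ^ t)) ≤
        (2 * n * C2 / m) * (m * ((3 / 4) ^ t * 2 ^ t)) ^ 2 := by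
      have h6 : (2 : ℝ) ^ t ≤ ((3 / 4) ^ t * 2 ^ t) ^ 2 := by
        rw [← mul_pow, ← pow_mul, mul_comm t 2, pow_mul]
        exact pow_le_pow_left₀ (by norm_num) (by norm_num) _
      have h7 : n * (C2 * (2 * m * 2 ^ t)) = (2 * n * C2 / m) * (m ^ 2 * 2 ^ t) := by
        field_simp
      rw [h7]
      apply mul_le_mul_of_nonneg_left _ (by positivity)
      rw [mul_pow (m : ℝ)]
      apply mul_le_mul_of_nonneg_left h6 (by positivity)
    calc √(n * (C2 * (2 * m * 2 ^ t))) ≤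
          √((2 * n * C2 / m) * (m * ((3 / 4) ^ t * 2 ^ t)) ^ 2) := Real.sqrt_le_sqrt h5
      _ = _ := by
        rw [Real.sqrt_mul (by positivity), Real.sqrt_sq (by positivity)]
  have h5 : Λ * √(2 * (16 * C2 * (5 / 2) ^ t) * (12 + (t : ℝ))) ≤
      Λ * (√(384 * C2) * ((7 / 8) ^ t * 2 ^ t)) :=
    mul_le_mul_of_nonneg_left hl1 hΛ
  have h6 : 4 * ρ * √(n * (C2 * (2 * m * 2 ^ t))) ≤
      4 * ρ * (√(2 * n * C2 / m) * (m * ((3 / 4) ^ t * 2 ^ t))) :=
    mul_le_mul_of_nonneg_left hl2 (by positivity)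
  rw [div_le_iff₀ (by positivity)]
  have h9 : (7 / 8 : ℝ) ^ t * (Λ * √(384 * C2) / m) ≤
      (7 / 8) ^ t * E1 := mul_le_mul_of_nonneg_left hE1 (by positivity)
  have h10 : (3 / 4 : ℝ) ^ t * (4 * ρ * √(2 * n * C2 / m)) ≤
      (3 / 4) ^ t * E2 := mul_le_mul_of_nonneg_left hE2 (by positivity)
  have h11 := mul_le_mul_of_nonneg_right (add_le_add h9 h10) (show (0 : ℝ) ≤ 2 ^ t * m by positivity)
  refine le_trans (add_le_add h5 h6) (le_trans (le_of_eq ?_) h11)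
  have h12 : Λ * √(384 * C2) / m * m = Λ * √(384 * C2) := by field_simp
  calc Λ * (√(384 * C2) * ((7 / 8) ^ t * 2 ^ t)) +
        4 * ρ * (√(2 * n * C2 / m) * (m * ((3 / 4) ^ t * 2 ^ t))) =
      (7 / 8) ^ t * 2 ^ t * (Λ * √(384 * C2)) +
        (3 / 4) ^ t * (4 * ρ * √(2 * n * C2 / m)) * (2 ^ t * m) := by ring
    _ = (7 / 8) ^ t * 2 ^ t * (Λ * √(384 * C2) / m * m) +
        (3 / 4) ^ t * (4 * ρ * √(2 * n * C2 / m)) * (2 ^ t * m) := by rw [h12]
    _ = _ := by ring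

theorem iterate {ι : Type*} {n : ℕ} (hn : 0 < n) (α : ι → Fin n → ℝ) (C2 : ℝ)
    (hC2 : 0 < C2) (hα : ∀ a, ∑ i, α a i ^ 2 ≤ C2) (B : Finset (Fin n)) (m : ℕ) (hm : 48 ≤ m)
    (hB : B.card ≤ 9 * m)
    (ρ Λ : ℝ) (hρ : 0 ≤ ρ) (hΛ : 0 ≤ Λ) (E1 E2 : ℝ)
    (hE1 : Λ * √(384 * C2) / m ≤ E1)
    (hE2 : 4 * ρ * √(2 * n * C2 / m) ≤ E2) (S : ℕ) :
    ∀ N : ℕ, (N : ℝ) ≤ 2 ^ S * m * (1 + (3 / 4) ^ S) → ∀ L : Fin N → ι,
    ∃ R ⊆ B, (R.card : ℝ) ≤ m * (1 - (4 / 5) ^ S) ∧ ∃ M : ℕ, M ≤ 2 * m ∧ ∃ L₀ : Fin M → ι,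
      ∀ Y : Fin n → ℝ,
      (∀ i, i ∉ B \ R → |Y i| ≤ ρ) → ∑ i ∈ B, |Y i| ≤ Λ →
      (∑ l, |∑ i, α (L l) i * Y i|) / (2 ^ S * m) -
        (7 * (1 - (7 / 8) ^ S) * E1 + 3 * (1 - (3 / 4) ^ S) * E2) ≤
      (∑ l, |∑ i, α (L₀ l) i * Y i|) / m := by
  classical
  have hm48 : (48 : ℝ) ≤ m := by exact_mod_cast hm
  have hm0 : (0 : ℝ) < m := by linarith
  have hn0 : (0 : ℝ) < n := by exact_mod_cast hn
  have hB' : (B.card : ℝ) ≤ 9 * m := by exact_mod_cast hB
  induction S with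
  | zero =>
    intro N hN L
    have hN' : (N : ℝ) ≤ ((2 * m : ℕ) : ℝ) := by
      push_cast
      norm_num at hN
      linarith
    refine ⟨∅, Finset.empty_subset _, by simp, N, by exact_mod_cast hN', L, fun Y _ _ => by simp⟩
  | succ S ih =>
    intro N hN L
    set x : Fin N → Fin n → ℝ := fun l => α (L l) with hx
    have h2S : (0 : ℝ) < 2 ^ (S + 1) := by positivity
    have h34 : (0 : ℝ) < (3 / 4) ^ (S + 1) := by positivity
    have h341 : (3 / 4 : ℝ) ^ (S + 1) ≤ 1 := pow_le_one₀ (by norm_num) (by norm_num)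
    set V : ℝ := 16 * C2 * (5 / 2) ^ (S + 1) with hV
    have hV0 : 0 < V := by positivity
    set C : ℝ := C2 * (2 * m * 2 ^ (S + 1)) with hC
    have hC0 : 0 < C := by positivity
    set N' : ℝ := 2 ^ (S + 1) * m * (1 + (3 / 4) ^ (S + 1)) with hN'
    have hN'0 : 0 < N' := by positivity
    have hN'2 : N' ≤ 2 * m * 2 ^ (S + 1) := by
      rw [hN']
      calc (2 : ℝ) ^ (S + 1) * m * (1 + (3 / 4) ^ (S + 1)) ≤ 2 ^ (S + 1) * m * (1 + 1) := by
            apply mul_le_mul_of_nonneg_left _ (by positivity)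
            linarith
        _ = _ := by ring
    set s : ℝ := 1 / 3 * (3 / 4) ^ (S + 1) * (2 ^ (S + 1) * m) with hs
    have hs0 : 0 ≤ s := by positivity
    set z : ℝ := 12 + ((S + 1 : ℕ) : ℝ) with hz
    have hz3 : 3 ≤ z := by
      have : (0 : ℝ) ≤ ((S + 1 : ℕ) : ℝ) := Nat.cast_nonneg _
      rw [hz]; linarith
    set R' : Finset (Fin n) := B.filter (fun i => V < ∑ l, x l i ^ 2) with hR'
    have hCsum : ∑ l, ∑ i, x l i ^ 2 ≤ C := by
      calc ∑ l, ∑ i, x l i ^ 2 ≤ ∑ l : Fin N, C2 := by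
            apply Finset.sum_le_sum
            intro l _
            exact hα (L l)
        _ = C2 * N := by
            rw [Finset.sum_const, Finset.card_univ, Fintype.card_fin, nsmul_eq_mul]; ring
        _ ≤ C := by
            rw [hC]
            exact mul_le_mul_of_nonneg_left (hN.trans hN'2) hC2.le
    have hR'card : (R'.card : ℝ) ≤ m / 8 * (4 / 5) ^ (S + 1) := by
      have h1 : (R'.card : ℝ) * V ≤ C := by
        calc (R'.card : ℝ) * V = ∑ i ∈ R', V := by rw [Finset.sum_const, nsmul_eq_mul]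
          _ ≤ ∑ i ∈ R', ∑ l, x l i ^ 2 :=
              Finset.sum_le_sum fun i hi => (Finset.mem_filter.1 hi).2.le
          _ ≤ ∑ i, ∑ l, x l i ^ 2 :=
              Finset.sum_le_sum_of_subset_of_nonneg (Finset.subset_univ _)
                fun i _ _ => Finset.sum_nonneg fun l _ => by positivity
          _ = ∑ l, ∑ i, x l i ^ 2 := Finset.sum_comm
          _ ≤ _ := hCsum
      have h2 : (R'.card : ℝ) ≤ C / V := by
        rw [le_div_iff₀ hV0]; exact h1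
      refine h2.trans (le_of_eq ?_)
      have e1 : (4 / 5 : ℝ) ^ (S + 1) = 2 ^ (S + 1) / (5 / 2) ^ (S + 1) := by
        rw [← div_pow]; norm_num
      rw [e1, hC, hV]
      field_simp
      norm_num
    set J : Finset (Fin n) := B \ R' with hJ
    have hJc : (J.card : ℝ) ≤ 9 * m := by
      refine le_trans ?_ hB'
      exact_mod_cast Finset.card_le_card Finset.sdiff_subset
    have hκ : 8 * Real.exp (-z) * J.card ≤ m / 8 * (4 / 5) ^ (S + 1) := by
      have h1 := exp_neg_level (S + 1)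
      calc 8 * Real.exp (-z) * J.card ≤ 8 * (1 / 150000 * (4 / 5) ^ (S + 1)) * (9 * m) := by
            gcongr
        _ ≤ _ := by
          have h2 : (0 : ℝ) ≤ m * (4 / 5) ^ (S + 1) := by positivity
          nlinarith
    have hent : Real.log 2 + 8 * Real.exp (-z) * J.card * z < s ^ 2 / (2 * N') := by
      have h1 := exp_neg_mul_level (S + 1)
      have h2 : 8 * Real.exp (-z) * J.card * z ≤ 6 / 1000 * m := by
        calc 8 * Real.exp (-z) * J.card * z = 8 * (z * Real.exp (-z)) * J.card := by ring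
          _ ≤ 8 * (12 / 150000) * (9 * m) := by
              gcongr
          _ ≤ _ := by nlinarith
      have h3 : Real.log 2 ≤ 0.6932 := by have := Real.log_two_lt_d9; linarith
      have h4 : 1 / 36 * (m : ℝ) ≤ s ^ 2 / (2 * N') := by
        rw [le_div_iff₀ (by positivity)]
        have h5 : (1 : ℝ) ≤ (9 / 8) ^ (S + 1) := one_le_pow₀ (by norm_num)
        have h6 : s ^ 2 = 1 / 9 * (9 / 8) ^ (S + 1) * (2 ^ (S + 1) * (m : ℝ) ^ 2) := by
          have e1 : (9 / 8 : ℝ) ^ (S + 1) * 2 ^ (S + 1) =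
              ((3 / 4) ^ (S + 1)) ^ 2 * (2 ^ (S + 1)) ^ 2 := by
            rw [← mul_pow, ← mul_pow ((3 / 4 : ℝ) ^ (S + 1)), ← mul_pow (3 / 4 : ℝ), ← pow_mul,
              mul_comm (S + 1) 2, pow_mul]
            norm_num
          calc s ^ 2 = 1 / 9 * (((3 / 4) ^ (S + 1)) ^ 2 * (2 ^ (S + 1)) ^ 2) * (m : ℝ) ^ 2 := by
                rw [hs]; ring
            _ = _ := by rw [← e1]; ring
        rw [h6]
        calc 1 / 36 * (m : ℝ) * (2 * N') ≤ 1 / 36 * (m : ℝ) * (2 * (2 * m * 2 ^ (S + 1))) := by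
              gcongr
          _ = 1 / 9 * 1 * (2 ^ (S + 1) * (m : ℝ) ^ 2) := by ring
          _ ≤ 1 / 9 * (9 / 8) ^ (S + 1) * (2 ^ (S + 1) * (m : ℝ) ^ 2) := by
              gcongr
      nlinarith
    obtain ⟨R₁, hR₁J, hR₁c, T, hTc, hT⟩ := thin hn x J V C hV0 hC0 (by
      intro i hi
      obtain ⟨hiB, hiR⟩ := Finset.mem_sdiff.1 hi
      by_contra hcon
      push Not at hcon
      exact hiR (Finset.mem_filter.2 ⟨hiB, hcon⟩)) hCsum z hz3 N' s hN hN'0 hs0 hent ρ Λ hρ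
    have hTN : (T.card : ℝ) ≤ 2 ^ S * m * (1 + (3 / 4) ^ S) := by
      refine hTc.trans (le_of_eq ?_)
      rw [hN', hs, pow_succ (2 : ℝ) S, pow_succ (3 / 4 : ℝ) S]
      ring
    obtain ⟨R'', hR''B, hR''card, M, hM, L₀, hL₀⟩ := ih T.card hTN
      (fun j => L ((T.equivFin.symm j : T) : Fin N))
    refine ⟨R' ∪ R₁ ∪ R'', Finset.union_subset (Finset.union_subset (Finset.filter_subset _ _)
      (hR₁J.trans Finset.sdiff_subset)) hR''B, ?_, M, hM, L₀, ?_⟩
    · have h1 : ((R' ∪ R₁ ∪ R'').card : ℝ) ≤ R'.card + R₁.card + R''.card := by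
        have h2 := Finset.card_union_le (R' ∪ R₁) R''
        have h3 := Finset.card_union_le R' R₁
        exact_mod_cast h2.trans (by omega)
      have h2 : (m : ℝ) * (1 - (4 / 5) ^ (S + 1)) =
          m / 8 * (4 / 5) ^ (S + 1) + m / 8 * (4 / 5) ^ (S + 1) + m * (1 - (4 / 5) ^ S) := by
        rw [pow_succ]; ring
      linarith
    · intro Y hY1 hY2
      have h1 := hT Y (by
        intro i hi
        apply hY1
        intro hi'
        apply hi
        rw [Finset.mem_sdiff] at hi' ⊢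
        refine ⟨Finset.mem_sdiff.2 ⟨hi'.1, fun h => hi'.2 ?_⟩, fun h => hi'.2 ?_⟩
        · exact Finset.mem_union_left _ (Finset.mem_union_left _ h)
        · exact Finset.mem_union_left _ (Finset.mem_union_right _ h)) (by
        refine le_trans ?_ hY2
        exact Finset.sum_le_sum_of_subset_of_nonneg
          (Finset.sdiff_subset.trans Finset.sdiff_subset) fun i _ _ => abs_nonneg _)
      have h2 := hL₀ Y (by
        intro i hi
        apply hY1
        intro hi'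
        apply hi
        rw [Finset.mem_sdiff] at hi' ⊢
        exact ⟨hi'.1, fun h => hi'.2 (Finset.mem_union_right _ h)⟩) hY2
      have h4 : ∑ j : Fin T.card, |∑ i, α (L ((T.equivFin.symm j : T) : Fin N)) i * Y i|
          = ∑ l ∈ T, |∑ i, x l i * Y i| := by
        rw [T.equivFin.symm.sum_comp (fun l : T => |∑ i, α (L (l : Fin N)) i * Y i|)]
        exact Finset.sum_coe_sort T (fun l => |∑ i, α (L l) i * Y i|)
      rw [h4] at h2
      set A := ∑ l, |∑ i, x l i * Y i| with hA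
      set U := ∑ l ∈ T, |∑ i, x l i * Y i| with hU
      -- the losses
      have hl3 : (Λ * √(2 * V * z) + 4 * ρ * √(n * C)) / (2 ^ (S + 1) * m) ≤
          (7 / 8) ^ (S + 1) * E1 + (3 / 4) ^ (S + 1) * E2 :=
        losses C2 hC2 n m hm0 ρ Λ hρ hΛ E1 E2 hE1 hE2 (S + 1)
      have h5 : A / (2 ^ (S + 1) * m) -
          (Λ * √(2 * V * z) + 4 * ρ * √(n * C)) / (2 ^ (S + 1) * m) ≤ U / (2 ^ S * m) := by
        have h6 : (A - (Λ * √(2 * V * z) + 4 * ρ * √(n * C))) / (2 ^ (S + 1) * m) ≤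
            2 * U / (2 ^ (S + 1) * m) := by gcongr
        have h7 : 2 * U / (2 ^ (S + 1) * (m : ℝ)) = U / (2 ^ S * m) := by
          rw [pow_succ]
          field_simp
        rw [h7, sub_div] at h6
        exact h6
      have e3 : 7 * (1 - (7 / 8 : ℝ) ^ (S + 1)) * E1 + 3 * (1 - (3 / 4) ^ (S + 1)) * E2 =
          7 * (1 - (7 / 8) ^ S) * E1 + 3 * (1 - (3 / 4) ^ S) * E2 +
          ((7 / 8) ^ (S + 1) * E1 + (3 / 4) ^ (S + 1) * E2) := by
        rw [pow_succ, pow_succ]; ring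
      rw [e3]
      linarith

end Pool.Agent.Helper72.SD
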