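import Mathlib
import Pool.Agent.Helper98.QH.LevelSigns

/-!
Level and signs for a smaller diagonal (MP_882a21_co); the argument of helper98 with other
constants.
-/

set_option autoImplicit false

namespace Pool.Agent.Helper72.SD

open scoped BigOperators Matrix
open Pool.Agent.Helper6.Helly
open Pool.Agent.Helper98.QH (pz sum_abs_le rank_sum aux_div)

/-- The level lemma. -/
theorem level {n : ℕ} (p : Fin n → ℝ) (h0 : ∀ i, 0 ≤ p i) (hq : ∀ i, p i ≤ 1 / 16384) (k : ℕ)
    (hk : 1 ≤ k) (hsum : ∑ i, p i = k) :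
    ∃ (τ : ℝ) (I : Finset (Fin n)), 0 < τ ∧ (∀ i ∈ I, τ ≤ p i) ∧ 4096 * k ≤ I.card ∧
      (∑ i, √(p i)) ^ 2 ≤ 10 * n * τ * I.card := by
  classical
  set N : Fin n → ℕ := fun i => (Finset.univ.filter fun j => p i ≤ p j).card with hN
  set J : Finset (Fin n) := Finset.univ.filter fun i => 4096 * k ≤ N i ∧ 0 < p i with hJ
  set Jc : Finset (Fin n) := Finset.univ.filter fun i => N i < 4096 * k with hJc
  have hkR : (1 : ℝ) ≤ (k : ℝ) := by exact_mod_cast hk
  have hJcard : Jc.card ≤ 4096 * k := by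
    rcases Jc.eq_empty_or_nonempty with h | h
    · rw [h]; simp
    · obtain ⟨i1, hi1, hmin⟩ := Jc.exists_min_image p h
      have h1 : Jc ⊆ Finset.univ.filter fun j => p i1 ≤ p j := by
        intro j hj
        simp only [Finset.mem_filter, Finset.mem_univ, true_and]
        exact hmin j hj
      have h2 : N i1 < 4096 * k := by
        simpa [hJc] using hi1
      have h3 := Finset.card_le_card h1
      have h4 : (Finset.univ.filter fun j => p i1 ≤ p j).card = N i1 := rfl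
      omega
  have hJcardR : (Jc.card : ℝ) ≤ 4096 * k := by exact_mod_cast hJcard
  -- splitting of sums
  have hsplit : ∀ f : Fin n → ℝ, (∀ i, p i = 0 → f i = 0) →
      ∑ i, f i = ∑ i ∈ Jc, f i + ∑ i ∈ J, f i := by
    intro f hf
    have hdisj : Disjoint Jc J := by
      rw [Finset.disjoint_left]
      intro i hi hi'
      simp only [hJc, hJ, Finset.mem_filter, Finset.mem_univ, true_and] at hi hi'
      omega
    rw [← Finset.sum_union hdisj]
    symm
    refine Finset.sum_subset (Finset.subset_univ _) fun i _ hi => ?_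
    apply hf
    simp only [hJc, hJ, Finset.mem_union, Finset.mem_filter, Finset.mem_univ, true_and,
      not_or, not_and, not_lt] at hi
    exact le_antisymm (hi.2 hi.1) (h0 i)
  have hJcp : ∑ i ∈ Jc, p i ≤ k / 4 := by
    calc ∑ i ∈ Jc, p i ≤ ∑ i ∈ Jc, (1 / 16384 : ℝ) := Finset.sum_le_sum fun i _ => hq i
      _ = Jc.card * (1 / 16384 : ℝ) := by rw [Finset.sum_const, nsmul_eq_mul]
      _ ≤ 4096 * k * (1 / 16384 : ℝ) := by
          exact mul_le_mul_of_nonneg_right hJcardR (by norm_num)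
      _ = k / 4 := by ring
  have hJp : 3 / 4 * (k : ℝ) ≤ ∑ i ∈ J, p i := by
    have := hsplit p (fun i h => h)
    rw [hsum] at this
    linarith
  have hJne : J.Nonempty := by
    by_contra h
    rw [Finset.not_nonempty_iff_eq_empty] at h
    rw [h, Finset.sum_empty] at hJp
    linarith
  obtain ⟨i0, hi0, hmax⟩ := J.exists_max_image (fun i => p i * N i) hJne
  have hi0' : 4096 * k ≤ N i0 ∧ 0 < p i0 := by simpa [hJ] using hi0
  set F : ℝ := p i0 * N i0 with hF
  have hFpos : 0 ≤ F := by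
    rw [hF]; exact mul_nonneg (h0 _) (Nat.cast_nonneg _)
  refine ⟨p i0, Finset.univ.filter fun j => p i0 ≤ p j, hi0'.2, ?_, hi0'.1, ?_⟩
  · intro i hi
    simpa using hi
  have hFn : 10 * (n : ℝ) * p i0 * ((Finset.univ.filter fun j => p i0 ≤ p j).card : ℝ) =
      10 * (n * F) := by
    rw [hF]; ring
  rw [hFn]
  have hnR : (0 : ℝ) ≤ n := Nat.cast_nonneg _
  -- lower bound for F
  have hlow : 3072 * (k : ℝ) ^ 2 ≤ n * F := by
    have h1 : ∑ i ∈ J, p i ≤ ∑ i ∈ J, F / (4096 * k) := by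
      refine Finset.sum_le_sum fun i hi => ?_
      have hi' : 4096 * k ≤ N i ∧ 0 < p i := by simpa [hJ] using hi
      rw [le_div_iff₀ (by positivity)]
      have h2 : (4096 * k : ℝ) ≤ N i := by exact_mod_cast hi'.1
      calc p i * (4096 * k) ≤ p i * N i := mul_le_mul_of_nonneg_left h2 (h0 i)
        _ ≤ F := hmax i hi
    rw [Finset.sum_const, nsmul_eq_mul] at h1
    have h3 : (J.card : ℝ) ≤ n := by
      have := Finset.card_le_univ J
      rw [Fintype.card_fin] at this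
      exact_mod_cast this
    have h4 : (J.card : ℝ) * (F / (4096 * k)) ≤ n * (F / (4096 * k)) :=
      mul_le_mul_of_nonneg_right h3 (by positivity)
    have h5 : 3 / 4 * (k : ℝ) ≤ n * (F / (4096 * k)) := by linarith
    have h6 : n * (F / (4096 * k)) = n * F / (4096 * k) := by ring
    rw [h6, le_div_iff₀ (by positivity)] at h5
    nlinarith
  -- the sum over J
  have hJs : ∑ i ∈ J, √(p i) ≤ 2 * √(n * F) := by
    have h1 : ∑ i ∈ J, √(p i) ≤ ∑ i ∈ J, √F * (1 / √(N i : ℝ)) := by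
      refine Finset.sum_le_sum fun i hi => ?_
      have hi' : 4096 * k ≤ N i ∧ 0 < p i := by simpa [hJ] using hi
      have hNi : (0 : ℝ) < N i := by
        have : 0 < N i := by omega
        exact_mod_cast this
      rw [mul_one_div, ← Real.sqrt_div hFpos]
      refine Real.sqrt_le_sqrt ?_
      rw [le_div_iff₀ hNi]
      exact hmax i hi
    have h2 : ∑ i ∈ J, √F * (1 / √(N i : ℝ)) ≤ ∑ i, √F * (1 / √(N i : ℝ)) := by
      refine Finset.sum_le_sum_of_subset_of_nonneg (Finset.subset_univ _) fun i _ _ => ?_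
      positivity
    have h3 : ∑ i, 1 / √(N i : ℝ) ≤ 2 * √(n : ℝ) := by
      have := rank_sum p n Finset.univ (by simp)
      exact this
    have h2' : ∑ i, √F * (1 / √(N i : ℝ)) = √F * ∑ i, 1 / √(N i : ℝ) := by
      rw [Finset.mul_sum]
    rw [h2'] at h2
    calc ∑ i ∈ J, √(p i) ≤ √F * ∑ i, 1 / √(N i : ℝ) := h1.trans h2
      _ ≤ √F * (2 * √(n : ℝ)) := mul_le_mul_of_nonneg_left h3 (Real.sqrt_nonneg _)
      _ = 2 * √(n * F) := by rw [Real.sqrt_mul hnR]; ring
  have hJcs : ∑ i ∈ Jc, √(p i) ≤ 64 * k := by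
    have h1 := sq_sum_le_card_mul_sum_sq (s := Jc) (f := fun i => √(p i))
    have h2 : ∑ i ∈ Jc, √(p i) ^ 2 = ∑ i ∈ Jc, p i :=
      Finset.sum_congr rfl fun i _ => Real.sq_sqrt (h0 i)
    rw [h2] at h1
    have h3 : ∑ i ∈ Jc, p i ≤ k := by linarith
    have h4 : (Jc.card : ℝ) * ∑ i ∈ Jc, p i ≤ (4096 * k) * k :=
      mul_le_mul hJcardR h3 (Finset.sum_nonneg fun i _ => h0 i) (by positivity)
    refine (abs_le_of_sq_le_sq' ?_ (by positivity)).2
    nlinarith
  rw [hsplit (fun i => √(p i)) (fun i h => by rw [h, Real.sqrt_zero])]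
  set g : ℝ := √(n * F) with hg
  have hg0 : 0 ≤ g := Real.sqrt_nonneg _
  have hg2 : g ^ 2 = n * F := Real.sq_sqrt (mul_nonneg hnR hFpos)
  rw [← hg2] at hlow ⊢
  have hA0 : 0 ≤ ∑ i ∈ Jc, √(p i) + ∑ i ∈ J, √(p i) := by positivity
  have hA : ∑ i ∈ Jc, √(p i) + ∑ i ∈ J, √(p i) ≤ 64 * k + 2 * g := by linarith
  calc (∑ i ∈ Jc, √(p i) + ∑ i ∈ J, √(p i)) ^ 2 ≤ (64 * k + 2 * g) ^ 2 :=
        pow_le_pow_left₀ hA0 hA 2
    _ ≤ 10 * g ^ 2 := by nlinarith [sq_nonneg (56 * (k : ℝ) - g)]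

/-- Level and signs. -/
theorem level_signs {n : ℕ} (P : Matrix (Fin n) (Fin n) ℝ) (hs : P.transpose = P)
    (hi : P * P = P) (q : ℝ) (hq1 : q ≤ 1 / 16384) (hq : ∀ i, P i i ≤ q) (k : ℕ) (hk : 1 ≤ k)
    (htr : P.trace = k) :
    ∃ (B : Finset (Fin n)) (u : Fin n → ℝ), P.mulVec u = u ∧ 384 * k ≤ B.card ∧
      (∀ i ∈ B, 1 ≤ |u i|) ∧ ∑ i, |u i| ≤ 68 * √(n * B.card) := by
  classical
  have hp : ∀ i, ∑ v, P i v ^ 2 = P i i := by
    intro i
    have h1 : (P * P) i i = P i i := by rw [hi]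
    rw [Matrix.mul_apply] at h1
    rw [← h1]
    refine Finset.sum_congr rfl fun v _ => ?_
    have h2 : P v i = P i v := by
      conv_lhs => rw [← hs]
      rfl
    rw [h2, sq]
  have h0 : ∀ i, 0 ≤ P i i := fun i => by
    rw [← hp]; exact Finset.sum_nonneg fun v _ => sq_nonneg _
  obtain ⟨τ, I, hτ, hI, hIk, hA⟩ := level (fun i => P i i) h0 (fun i => (hq i).trans hq1) k hk
    (by rw [← htr]; rfl)
  set A : ℝ := ∑ i, √(P i i) with hAdef
  set r : ℝ := (I.card : ℝ) with hr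
  have hkR : (1 : ℝ) ≤ (k : ℝ) := by exact_mod_cast hk
  have hrk : 4096 * (k : ℝ) ≤ r := by rw [hr]; exact_mod_cast hIk
  have hrpos : 0 < r := by linarith
  have hApos : 0 < A := by
    have h1 : ∑ i ∈ I, √τ ≤ ∑ i ∈ I, √(P i i) :=
      Finset.sum_le_sum fun i hi => Real.sqrt_le_sqrt (hI i hi)
    have h2 : ∑ i ∈ I, √(P i i) ≤ A :=
      Finset.sum_le_sum_of_subset_of_nonneg (Finset.subset_univ _)
        fun i _ _ => Real.sqrt_nonneg _
    rw [Finset.sum_const, nsmul_eq_mul] at h1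
    have h3 : 0 < (I.card : ℝ) * √τ := mul_pos hrpos (Real.sqrt_pos.2 hτ)
    linarith
  set U : (Fin n → Bool) → Fin n → ℝ := fun σ i => ∑ v, sg (σ v) * P i v with hU
  set Bs : (Fin n → Bool) → Finset (Fin n) := fun σ => I.filter fun i => τ / 4 ≤ U σ i ^ 2
    with hBs
  set M : ℝ := (Fintype.card (Fin n → Bool) : ℝ) with hM
  have hMpos : 0 < M := by
    rw [hM]; exact_mod_cast Fintype.card_pos
  set lam : ℝ := 3 / 32 * r / A with hlam
  have hlampos : 0 < lam := by rw [hlam]; positivity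
  -- average of the number of good indices
  have h1 : 3 / 16 * M * r ≤ ∑ σ, ((Bs σ).card : ℝ) := by
    have h2 : ∀ σ, ((Bs σ).card : ℝ) = ∑ i ∈ I, if τ / 4 ≤ U σ i ^ 2 then (1 : ℝ) else 0 := by
      intro σ
      rw [hBs, Finset.sum_ite, Finset.sum_const, Finset.sum_const_zero]
      simp
    simp only [h2]
    rw [Finset.sum_comm]
    have h3 : ∀ i ∈ I, 3 / 16 * M ≤
        ∑ σ : Fin n → Bool, if τ / 4 ≤ U σ i ^ 2 then (1 : ℝ) else 0 := by
      intro i hiI
      have hpi : 0 < P i i := lt_of_lt_of_le hτ (hI i hiI)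
      refine (pz (fun v => P i v) (P i i) hpi (hp i)).trans (Finset.sum_le_sum fun σ _ => ?_)
      have h4 : U σ i = ∑ v, sg (σ v) * P i v := rfl
      rw [← h4]
      have h5 : τ ≤ P i i := hI i hiI
      split_ifs with h6 h7 h7
      · exact le_rfl
      · exfalso; apply h7; linarith
      · norm_num
      · exact le_rfl
    calc 3 / 16 * M * r = ∑ i ∈ I, 3 / 16 * M := by
          rw [Finset.sum_const, nsmul_eq_mul, hr]; ring
      _ ≤ _ := Finset.sum_le_sum h3
  have h2 : ∑ σ, ∑ i, |U σ i| ≤ M * A := by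
    rw [Finset.sum_comm, hAdef, Finset.mul_sum]
    refine Finset.sum_le_sum fun i _ => ?_
    have := sum_abs_le (fun v => P i v)
    rw [hp i] at this
    exact this
  obtain ⟨σ, -, hσ⟩ : ∃ σ ∈ (Finset.univ : Finset (Fin n → Bool)),
      3 / 32 * r ≤ ((Bs σ).card : ℝ) - lam * ∑ i, |U σ i| := by
    by_contra hcon
    push Not at hcon
    have h3 : ∑ σ : Fin n → Bool, (((Bs σ).card : ℝ) - lam * ∑ i, |U σ i|) <
        ∑ _σ : Fin n → Bool, 3 / 32 * r :=
      Finset.sum_lt_sum_of_nonempty Finset.univ_nonempty hcon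
    rw [Finset.sum_sub_distrib, ← Finset.mul_sum, Finset.sum_const, nsmul_eq_mul,
      Finset.card_univ, ← hM] at h3
    have h4 : lam * ∑ σ, ∑ i, |U σ i| ≤ lam * (M * A) :=
      mul_le_mul_of_nonneg_left h2 hlampos.le
    have h5 : lam * (M * A) = 3 / 32 * r * M := by
      rw [hlam]; field_simp
    nlinarith
  have hUpos : 0 ≤ ∑ i, |U σ i| := Finset.sum_nonneg fun i _ => abs_nonneg _
  have hb1 : 3 / 32 * r ≤ ((Bs σ).card : ℝ) := by nlinarith [mul_nonneg hlampos.le hUpos]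
  have hb2 : lam * ∑ i, |U σ i| ≤ ((Bs σ).card : ℝ) := by nlinarith
  have hbr : ((Bs σ).card : ℝ) ≤ r := by
    rw [hr]; exact_mod_cast Finset.card_le_card (Finset.filter_subset _ _)
  set b : ℝ := ((Bs σ).card : ℝ) with hb
  have hbpos : 0 < b := by linarith
  have hsτ : 0 < √τ := Real.sqrt_pos.2 hτ
  have hUP : P.mulVec (U σ) = U σ := by
    have h3 : U σ = P.mulVec (fun v => sg (σ v)) := by
      funext i
      simp only [hU, Matrix.mulVec, dotProduct]
      exact Finset.sum_congr rfl fun v _ => mul_comm _ _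
    rw [h3, Matrix.mulVec_mulVec, hi]
  refine ⟨Bs σ, (2 / √τ) • U σ, ?_, ?_, ?_, ?_⟩
  · rw [Matrix.mulVec_smul, hUP]
  · have h3 : (384 * k : ℝ) ≤ b := by linarith
    rw [hb] at h3
    exact_mod_cast h3
  · intro i hi
    have h3 : τ / 4 ≤ U σ i ^ 2 := (Finset.mem_filter.1 hi).2
    have h4 : √τ / 2 ≤ |U σ i| := by
      rw [← Real.sqrt_sq_eq_abs]
      have h5 : √τ / 2 = √(τ / 4) := by
        rw [Real.sqrt_div' _ (by norm_num : (0:ℝ) ≤ 4)]
        congr 1
        rw [show (4 : ℝ) = 2 ^ 2 by norm_num, Real.sqrt_sq (by norm_num)]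
      rw [h5]
      exact Real.sqrt_le_sqrt h3
    rw [Pi.smul_apply, smul_eq_mul, abs_mul, abs_of_pos (by positivity : (0:ℝ) < 2 / √τ)]
    rw [div_mul_eq_mul_div, le_div_iff₀ hsτ]
    linarith
  · have h3 : ∑ i, |((2 / √τ) • U σ) i| = 2 / √τ * ∑ i, |U σ i| := by
      rw [Finset.mul_sum]
      refine Finset.sum_congr rfl fun i _ => ?_
      rw [Pi.smul_apply, smul_eq_mul, abs_mul, abs_of_pos (by positivity : (0:ℝ) < 2 / √τ)]
    rw [h3]
    -- sum |U| ≤ (32/3) A b / r
    have h4 : ∑ i, |U σ i| ≤ 32 / 3 * A * b / r := by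
      have h5 : ∑ i, |U σ i| ≤ b / lam := by
        rw [le_div_iff₀ hlampos]; linarith
      refine h5.trans (le_of_eq ?_)
      rw [hlam]
      field_simp
    have hA2 : A ≤ √(10 * n * τ * r) := by
      rw [← Real.sqrt_sq hApos.le]
      exact Real.sqrt_le_sqrt hA
    have hA3 : √(10 * n * τ * r) = √10 * √n * √τ * √r := by
      rw [Real.sqrt_mul (by positivity), Real.sqrt_mul (by positivity),
        Real.sqrt_mul (by norm_num)]
    have hnn : (0 : ℝ) ≤ n := Nat.cast_nonneg _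
    have hsr : 0 < √r := Real.sqrt_pos.2 hrpos
    have hr2 : √r * √r = r := Real.mul_self_sqrt hrpos.le
    have hb2' : √b * √b = b := Real.mul_self_sqrt hbpos.le
    have hsb : √b ≤ √r := Real.sqrt_le_sqrt hbr
    have h10 : √10 ≤ 3.1875 := by
      rw [show (3.1875 : ℝ) = √(3.1875 ^ 2) by rw [Real.sqrt_sq (by norm_num)]]
      exact Real.sqrt_le_sqrt (by norm_num)
    rw [hA3] at hA2
    calc 2 / √τ * ∑ i, |U σ i| ≤ 2 / √τ * (32 / 3 * A * b / r) :=
          mul_le_mul_of_nonneg_left h4 (by positivity)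
      _ ≤ 2 / √τ * (32 / 3 * (√10 * √n * √τ * √r) * b / r) := by
          gcongr
      _ = 64 / 3 * √10 * √n * (b * √r / r) := by
          field_simp
          ring
      _ = 64 / 3 * √10 * √n * (√b * (√b / √r)) := by
          rw [aux_div b r (√b) (√r) hsr hb2' hr2]
      _ ≤ 68 * √n * √b := by
          have h6 : √b / √r ≤ 1 := (div_le_one hsr).2 hsb
          have h7 : √b * (√b / √r) ≤ √b := by
            have := mul_le_mul_of_nonneg_left h6 (Real.sqrt_nonneg b)
            linarith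
          calc 64 / 3 * √10 * √n * (√b * (√b / √r)) ≤ 64 / 3 * 3.1875 * √n * √b := by
                gcongr
            _ = 68 * √n * √b := by ring
      _ = 68 * √(n * b) := by rw [Real.sqrt_mul hnn]; ring

end Pool.Agent.Helper72.SD
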